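import Mathlib
import Pool.Agent.X26.MC.Dil

/-!
# Both shapes of prime triples, dilated by the same `h`, in all patterns and in several dense sets of primes

Let `S_1, …, S_M` be arbitrary sets of primes in arbitrary windows `(y_i, y_i + X]`, `X ≥ x ^ θ`, with at least
`δ X / log x` elements each (for `S_i` = all primes of a window `(y_i, y_i + X]` below `x` the lower bound is known for
`X ≥ x ^ 0.525`). For every `D` between a power of `log x` and `X`, a positive proportion of all `(h, d_1, …, d_m)` in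
`[1, D] ^ (m + 1)` serves for both dilated shapes `(p, p + 2 h, p + 6 h)` and `(p, p + 4 h, p + 6 h)`, for ALL
`i ≤ M` and for ALL `F ⊆ {0, …, k - 1} ^ m` containing `0` at once: the number of the `p ∈ S_i` for which all the
`p + t h + ∑ f_j d_j`, `t` in the shape, `f ∈ F`, are elements of `S_i` has the order of magnitude which the
Hardy-Littlewood conjecture predicts.
-/

set_option autoImplicit false

namespace Pool.Agent.Results.MP_c0d11e_nt.DilatedShapes

open Finset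

/-- The number of the residue classes modulo `q` occupied by `T`. -/
def nu (T : Finset ℤ) (q : ℕ) : ℕ := (T.image (fun t : ℤ => t % q)).card

/-- The local factor `(1 - ν(q) / q) (1 - 1 / q) ^ (-|T|)`. -/
noncomputable def loc (T : Finset ℤ) (q : ℕ) : ℝ := (1 - (nu T q : ℝ) / q) / (1 - 1 / (q : ℝ)) ^ T.card

/-- The singular series, the product of the local factors over all primes. -/
noncomputable def Sing (T : Finset ℤ) : ℝ := ∏' q : Nat.Primes, loc T q

/-- the first shape `(p, p + 2, p + 6)` -/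
def ShapeA : Finset ℕ := {0, 2, 6}

/-- the second shape `(p, p + 4, p + 6)` -/
def ShapeB : Finset ℕ := {0, 4, 6}

/-- the integers `t h + ∑ f_j d_j`, `t ∈ T`, `f ∈ F` -/
def dil {m : ℕ} (T : Finset ℕ) (h : ℕ) (d : Fin m → ℕ) (F : Finset (Fin m → ℕ)) : Finset ℤ :=
  (T ×ˢ F).image (fun p : ℕ × (Fin m → ℕ) => ((p.1 * h + ∑ j, p.2 j * d j : ℕ) : ℤ))

open Classical in
/-- Let `θ, δ > 0` and `M`, `m`, `k` be given. There are `c > 0` and `B` such that for all large `x`, all `y_1, …, y_M`,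
all `X`, `D` with `x ^ θ ≤ X ≤ x` and `log ^ B x ≤ D ≤ X` and all sets `S_i` of primes in `(y_i, y_i + X]` with
`|S_i| ≥ δ X / log x` there are at least `c D ^ (m + 1)` pairs `(h, d)`, `h ∈ [1, D]`, `d ∈ [1, D] ^ m`, with the
following property. For both shapes `T`, all `i` and all sets `F` of vectors with entries in `{0, ..., k - 1}` which
contain `0`, the set `T'` of the `t h + ∑ f_j d_j`, `t ∈ T`, `f ∈ F`, consists of `3 |F|` integers and misses a class
modulo every prime, and for at least `c 𝔖(T') X / log ^ (3 |F|) x` elements `n` of `S_i` all these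
`n + t h + ∑ f_j d_j` are elements of `S_i`. -/
theorem result (M m k : ℕ) (θ δ : ℝ) (hθ : 0 < θ) (hδ : 0 < δ) : ∃ c : ℝ, 0 < c ∧ ∃ B x₀ : ℕ, ∀ x : ℕ, x₀ ≤ x →
    ∀ (y : Fin M → ℕ) (X D : ℕ), (x : ℝ) ^ θ ≤ X → X ≤ x → Real.log x ^ B ≤ D → D ≤ X → ∀ S : Fin M → Finset ℕ,
    (∀ i, ∀ p ∈ S i, p.Prime ∧ y i < p ∧ p ≤ y i + X) → (∀ i, δ * (X / Real.log x) ≤ ((S i).card : ℝ)) →
    ∃ G : Finset (ℕ × (Fin m → ℕ)), (∀ v ∈ G, (1 ≤ v.1 ∧ v.1 ≤ D) ∧ ∀ j, 1 ≤ v.2 j ∧ v.2 j ≤ D) ∧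
      c * (D : ℝ) ^ (m + 1) ≤ (G.card : ℝ) ∧
      ∀ v ∈ G, ∀ T : Finset ℕ, (T = ShapeA ∨ T = ShapeB) → ∀ i, ∀ F : Finset (Fin m → ℕ),
        (∀ f ∈ F, ∀ j, f j < k) → (fun _ => 0) ∈ F →
        (dil T v.1 v.2 F).card = 3 * F.card ∧ (∀ q : ℕ, q.Prime → nu (dil T v.1 v.2 F) q < q) ∧
        c * (Sing (dil T v.1 v.2 F) * (X / Real.log x ^ (3 * F.card))) ≤
          (((S i).filter (fun n => ∀ t ∈ T, ∀ f ∈ F, n + (t * v.1 + ∑ j, f j * v.2 j) ∈ S i)).card : ℝ) := by
  obtain ⟨c, hc, B, x₀, h⟩ := Pool.Agent.X26.MC.dilM M m (max k 7) (θ := θ) (δ := δ) hθ hδ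
  refine ⟨c, hc, B, x₀, fun x hx y X D hX hXx hBD hDX S hS hSc => ?_⟩
  obtain ⟨G, g1, g2, g3⟩ := h x hx y X D hX hXx hBD hDX S
    (fun i p hp => mem_Ioc.2 ⟨(hS i p hp).2.1, (hS i p hp).2.2⟩) (fun i p hp => (hS i p hp).1) hSc
  refine ⟨G, ?_, g2, ?_⟩
  · intro v hv
    have h1 := g1 hv
    rw [mem_product, Fintype.mem_piFinset] at h1
    exact ⟨mem_Icc.1 h1.1, fun j => mem_Icc.1 (h1.2 j)⟩
  · intro v hv T hT i F hF hF0
    have hTk : ∀ t ∈ T, t < max k 7 := by
      intro t ht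
      have h2 : t < 7 := by
        rcases hT with rfl | rfl
        · revert t; decide
        · revert t; decide
      exact lt_of_lt_of_le h2 (le_max_right _ _)
    have hT0 : 0 ∈ T := by
      rcases hT with rfl | rfl <;> decide
    have hTc : T.card = 3 := by
      rcases hT with rfl | rfl <;> decide
    obtain ⟨k1, k2, k3⟩ := g3 v hv T F hTk hT0 (fun f hf j => lt_of_lt_of_le (hF f hf j) (le_max_left _ _)) hF0 i
    rw [hTc] at k1
    refine ⟨k1, k2, ?_⟩
    have e : Pool.Agent.Y843.AC.HL.gg (Pool.Agent.X26.MC.dil T v.1 v.2 F) x =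
        Sing (dil T v.1 v.2 F) / Real.log x ^ (Pool.Agent.X26.MC.dil T v.1 v.2 F).card := rfl
    rw [e, k1] at k3
    have e2 : c * (Sing (dil T v.1 v.2 F) * (X / Real.log x ^ (3 * F.card))) =
        c * (X * (Sing (dil T v.1 v.2 F) / Real.log x ^ (3 * F.card))) := by ring
    rw [e2]
    exact k3

end Pool.Agent.Results.MP_c0d11e_nt.DilatedShapes
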