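import Pool.Agent.X15.SysS.Clu

/-!
# Prime triples `(p, p + h, p + k)` whose first member lies in a cluster of primes, for most pairs `(h, k)`

For all but an arbitrarily small proportion of the admissible pairs `(h, k)` of positive integers up to `x` the number of
the prime triples `(p, p + h, p + k)`, `p ≤ x`, for which moreover at least `m` further primes have distance at most
`ε log p` from `p`, is at least `c x / (log x) ^ 3`. Here `m` is arbitrarily large and `ε` arbitrarily small. The same
for tuples of any length.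

The theorem rests on the library development Pool.Agent.TH882 (primes with several close neighbours are dense in most
reduced classes).
-/

set_option autoImplicit false

open Finset Filter Topology

namespace Pool.Agent.Results.MP_c0d11e_nt.MostShiftsInClusters

/-- `p` is a prime, and there are at least `m` other primes at distance at most `R` from `p`. -/
def Clustered (m : ℕ) (R : ℝ) (p : ℕ) : Prop :=
  p.Prime ∧ m ≤ {q : ℕ | q.Prime ∧ q ≠ p ∧ |(q : ℝ) - p| ≤ R}.ncard

/-- No local obstruction: for every prime `l` there is an integer `y` such that `l` divides neither `y` nor any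
`y + h_j`. -/
def Admissible {r : ℕ} (h : Fin r → ℕ) : Prop :=
  ∀ l : ℕ, l.Prime → ∃ y : ℤ, ¬ (l : ℤ) ∣ y ∧ ∀ j, ¬ (l : ℤ) ∣ y + h j

/-- The primes `p ≤ x` with at least `m` other primes at distance at most `ε log p` for which all `p + h_j` are prime. -/
def firstMembers {r : ℕ} (m : ℕ) (ε : ℝ) (h : Fin r → ℕ) (x : ℕ) : Set ℕ :=
  {p : ℕ | p ≤ x ∧ Clustered m (ε * Real.log p) p ∧ ∀ j, (p + h j).Prime}

/-- The admissible vectors of positive integers `h_j ≤ x` with fewer than `c x / (log x) ^ (r + 1)` such primes. -/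
def exceptions (r m : ℕ) (ε c : ℝ) (x : ℕ) : Set (Fin r → ℕ) :=
  {h : Fin r → ℕ | (∀ j, 1 ≤ h j ∧ h j ≤ x) ∧ Admissible h ∧
    ((firstMembers m ε h x).ncard : ℝ) < c * (x / Real.log x ^ (r + 1))}

/-- **Prime tuples starting in clusters of primes, for most shifts.** Let `r`, `m ≥ 0` and `ε, κ > 0`. There are `c > 0`
and `x₀` such that for all `x ≥ x₀` and all admissible vectors `(h_1, ..., h_r)` of positive integers `h_j ≤ x`, with at
most `κ x ^ r` exceptions, at least `c x / (log x) ^ (r + 1)` primes `p ≤ x` make all the numbers `p + h_j` prime and have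
at least `m` other primes at distance at most `ε log p` from `p`. For `r = 2` these are prime triples, for `r = 3`
quadruples. -/
theorem result (r m : ℕ) (ε κ : ℝ) (hε : 0 < ε) (hκ : 0 < κ) : ∃ c : ℝ, 0 < c ∧ ∃ x₀ : ℕ,
    ∀ x : ℕ, x₀ ≤ x → ((exceptions r m ε c x).ncard : ℝ) ≤ κ * (x : ℝ) ^ r := by
  classical
  obtain ⟨c, hc, x₀, h⟩ := Pool.Agent.X15.SysS.clu_sys (fun _ : Fin r => (1 : ℤ))
    (fun _ => Or.inl rfl) (fun _ => Polynomial.X) (fun _ => by simp) (fun _ => by simp) m ε hε 1 κ hκ
  refine ⟨c, hc, x₀, fun x hx => ?_⟩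
  have h1 := h x hx
  have e0 : ∏ j : Fin r, (x : ℝ) ^ (Polynomial.X : Polynomial ℤ).natDegree = (x : ℝ) ^ r := by
    rw [Polynomial.natDegree_X, pow_one, prod_const, card_univ, Fintype.card_fin]
  rw [e0] at h1
  refine le_trans ?_ h1
  apply Nat.cast_le.2
  rw [← Set.ncard_coe_finset]
  apply Set.ncard_le_ncard _ (finite_toSet _)
  rintro k ⟨hk1, hk2, hk3⟩
  rw [mem_coe, mem_filter, Fintype.mem_piFinset]
  refine ⟨fun j => ?_, ?_, lt_of_le_of_lt ?_ hk3⟩
  · rw [mem_Icc, Polynomial.natDegree_X, pow_one, one_mul]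
    exact hk1 j
  · intro l hl
    obtain ⟨y, hy1, hy2⟩ := hk2 l hl
    refine ⟨y, hy1, fun j hd => hy2 j ?_⟩
    rw [one_mul, Polynomial.eval_X, add_comm] at hd
    exact hd
  · apply Nat.cast_le.2
    rw [← Set.ncard_coe_finset]
    apply Set.ncard_le_ncard _ ((Set.finite_Iic x).subset fun n hn => hn.1)
    intro q hq
    rw [mem_coe, mem_filter, mem_Icc] at hq
    obtain ⟨⟨hq1, hq2⟩, hq3, hq4⟩ := hq
    refine ⟨hq2, hq3, fun j => ?_⟩
    have h5 := hq4 j
    rw [one_mul, Polynomial.eval_X] at h5
    have h6 : ((k j : ℤ) + (q : ℤ)).toNat = q + k j := by omega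
    rwa [h6] at h5

end Pool.Agent.Results.MP_c0d11e_nt.MostShiftsInClusters
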