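import Mathlib
import Pool.Agent.X26.MC.Short

/-!
# Both shapes of prime triples with almost primes in short intervals: common patterns of dense sets

Let `θ > 0`. For a suitable `j = j(θ)` the number of the triples `(n, n + 2, n + 6)`, and of the triples
`(n, n + 4, n + 6)`, of products of at most `j` primes has the order predicted for primes in every interval of length
`X ≥ x ^ θ` in `[1, x]`. Let `S_1, …, S_M` be arbitrary sets of such `n`, of one or the other shape, in arbitrary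
intervals of length `X`, which contain a positive proportion of the expected number. Then a positive proportion of the
vectors `d ∈ [1, D] ^ m`, `D` between a power of `log x` and `X`, serves for ALL `i` and for ALL
`F ⊆ {0, …, k - 1} ^ m` containing `0` at once: the number of the `n ∈ S_i` for which all the `n + ∑ f_l d_l`, `f ∈ F`,
are in `S_i` has the order which the Hardy-Littlewood conjecture predicts for the `3 |F|` forms.
-/

set_option autoImplicit false

namespace Pool.Agent.Results.MP_c0d11e_nt.ShortIntervals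

open Finset

/-- The number of the residue classes modulo `q` occupied by `T`. -/
def nu (T : Finset ℤ) (q : ℕ) : ℕ := (T.image (fun t : ℤ => t % q)).card

/-- The local factor `(1 - ν(q) / q) (1 - 1 / q) ^ (-|T|)`. -/
noncomputable def loc (T : Finset ℤ) (q : ℕ) : ℝ := (1 - (nu T q : ℝ) / q) / (1 - 1 / (q : ℝ)) ^ T.card

/-- The singular series, the product of the local factors over all primes. -/
noncomputable def Sing (T : Finset ℤ) : ℝ := ∏' q : Nat.Primes, loc T q

/-- `m ≠ 0` is up to the sign a product of at most `j` primes, all of them larger than `w`. -/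
def Almost (j : ℕ) (w : ℝ) (m : ℤ) : Prop :=
  m ≠ 0 ∧ m.natAbs.primeFactorsList.length ≤ j ∧ ∀ q : ℕ, q.Prime → (q : ℤ) ∣ m → w < q

open Classical in
/-- the `n` in `(y, y + X]` for which all `n + t`, `t ∈ T`, are products of at most `j` primes, all `> x ^ (1 / j)` -/
noncomputable def AP (j x : ℕ) (T : Finset ℤ) (y X : ℕ) : Finset ℕ :=
  (Ioc y (y + X)).filter (fun n => ∀ t ∈ T, Almost j ((x : ℝ) ^ (1 / (j : ℝ))) ((n : ℤ) + t))

/-- The set of the integers `t + ∑ f_i d_i`, `t ∈ T`, `f ∈ F`. -/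
def sumSet {m : ℕ} (T : Finset ℤ) (d : Fin m → ℕ) (F : Finset (Fin m → ℕ)) : Finset ℤ :=
  (T ×ˢ F).image (fun p : ℤ × (Fin m → ℕ) => p.1 + ((∑ i, p.2 i * d i : ℕ) : ℤ))

/-- the first shape `(n, n + 2, n + 6)` -/
def ShapeA : Finset ℤ := {0, 2, 6}

/-- the second shape `(n, n + 4, n + 6)` -/
def ShapeB : Finset ℤ := {0, 4, 6}

theorem adm_of (T : Finset ℤ) (hT : T.card = 3) (h2 : nu T 2 < 2) (h3 : nu T 3 < 3) :
    ∀ q : ℕ, q.Prime → nu T q < q := by
  intro q hq
  by_cases h5 : 5 ≤ q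
  · have : nu T q ≤ T.card := card_image_le
    omega
  · have := hq.two_le
    interval_cases q
    · exact h2
    · exact h3
    · exact absurd hq (by decide)

theorem tup_of {x : ℕ} (hx : 6 ≤ x) {T : Finset ℤ} (hT : T = ShapeA ∨ T = ShapeB) :
    Pool.Agent.Y843.AC.HL.Tup 3 x T := by
  have hc4 : T.card = 3 := by
    rcases hT with h3 | h3 <;> rw [h3] <;> decide
  refine ⟨hc4, ?_, ?_⟩
  · show ∀ q : ℕ, q.Prime → nu T q < q
    rcases hT with h3 | h3 <;> rw [h3]
    · exact adm_of _ (by decide) (by decide) (by decide)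
    · exact adm_of _ (by decide) (by decide) (by decide)
  · intro t ht
    rcases hT with h3 | h3 <;> rw [h3] at ht <;>
      simp only [ShapeA, ShapeB, mem_insert, mem_singleton] at ht <;> rcases ht with rfl | rfl | rfl <;> norm_num <;>
      exact_mod_cast (by omega)

/-- Let `M ≥ 1` and `θ > 0` be given. There are `j ≥ 1` and `c₀ > 0` with:
1. for all large `x`, both shapes `T` and every window `(y, y + X] ⊆ [1, x]` with `X ≥ x ^ θ` the set `AP j x T y X` has
  at least `c₀ 𝔖(T) X / log ^ 3 x` elements;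
2. for all `m`, `k` and `δ > 0` there are `c > 0` and `B` such that for all large `x`, all shapes `T_1, …, T_M` among the
  two, all `y_1, …, y_M`, all `X`, `D` with `x ^ θ ≤ X ≤ x` and `log ^ B x ≤ D ≤ X` and all sets
  `S_i ⊆ AP j x T_i y_i X` with `|S_i| ≥ δ 𝔖(T_i) X / log ^ 3 x`, at least `c D ^ m` vectors `d` with entries in `[1, D]`
  have the following property: for all `i` and all sets `F` of vectors with entries in `{0, ..., k - 1}` which contain
  `0`, the set `T' = T_i + {∑ f_l d_l : f ∈ F}` consists of `3 |F|` integers and misses a class modulo every prime, and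
  for at least `c 𝔖(T') X / log ^ (3 |F|) x` elements `n` of `S_i` all the `n + ∑ f_l d_l`, `f ∈ F`, are elements
  of `S_i`. -/
theorem result (M : ℕ) (hM : 1 ≤ M) (θ : ℝ) (hθ : 0 < θ) : ∃ j : ℕ, 1 ≤ j ∧ ∃ c₀ : ℝ, 0 < c₀ ∧
    (∃ x₀ : ℕ, ∀ x : ℕ, x₀ ≤ x → ∀ T : Finset ℤ, (T = ShapeA ∨ T = ShapeB) → ∀ y X : ℕ, (x : ℝ) ^ θ ≤ X →
      y + X ≤ x → c₀ * (Sing T * (X / Real.log x ^ 3)) ≤ ((AP j x T y X).card : ℝ)) ∧
    ∀ (m k : ℕ) (δ : ℝ), 0 < δ → ∃ c : ℝ, 0 < c ∧ ∃ B x₀ : ℕ, ∀ x : ℕ, x₀ ≤ x → ∀ T : Fin M → Finset ℤ,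
      (∀ i, T i = ShapeA ∨ T i = ShapeB) → ∀ (y : Fin M → ℕ) (X D : ℕ), (x : ℝ) ^ θ ≤ X → X ≤ x →
      Real.log x ^ B ≤ D → D ≤ X → ∀ S : Fin M → Finset ℕ, (∀ i, S i ⊆ AP j x (T i) (y i) X) →
      (∀ i, δ * (Sing (T i) * (X / Real.log x ^ 3)) ≤ ((S i).card : ℝ)) →
      ∃ G : Finset (Fin m → ℕ), (∀ d ∈ G, ∀ i, 1 ≤ d i ∧ d i ≤ D) ∧ c * (D : ℝ) ^ m ≤ G.card ∧
        ∀ d ∈ G, ∀ F : Finset (Fin m → ℕ), (∀ f ∈ F, ∀ i, f i < k) → (fun _ => 0) ∈ F → ∀ i,
          (sumSet (T i) d F).card = 3 * F.card ∧ (∀ q : ℕ, q.Prime → nu (sumSet (T i) d F) q < q) ∧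
          c * (Sing (sumSet (T i) d F) * (X / Real.log x ^ (3 * F.card))) ≤
            (((S i).filter (fun n => ∀ f ∈ F, n + ∑ l, f l * d l ∈ S i)).card : ℝ) := by
  classical
  obtain ⟨j, hj, c₀, hc₀, ⟨x₁, h1⟩, h2⟩ := Pool.Agent.X26.MC.shortM M (fun _ => 3) hθ
  have hg : ∀ (x X : ℕ) (T : Finset ℤ), T.card = 3 → ∀ a : ℝ, a * (Sing T * (X / Real.log x ^ 3)) =
      a * (X * Pool.Agent.Y843.AC.HL.gg T x) := by
    intro x X T hT a
    have e : Pool.Agent.Y843.AC.HL.gg T x = Sing T / Real.log x ^ T.card := rfl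
    rw [e, hT]
    ring
  refine ⟨j, hj, c₀, hc₀, ⟨max x₁ 6, fun x hx T hT y X hX hyX => ?_⟩, ?_⟩
  · have ht := tup_of (x := x) ((le_max_right _ _).trans hx) hT
    rw [hg x X T ht.card]
    exact h1 x ((le_max_left _ _).trans hx) ⟨0, hM⟩ T ht y X hX hyX
  · intro m k δ hδ
    obtain ⟨c, hc, B, x₂, h3⟩ := h2 m k δ hδ
    refine ⟨c, hc, B, max x₂ 6, fun x hx T hT y X D hX hXx hD hDX S hS hSc => ?_⟩
    obtain ⟨G, g1, g2, g3⟩ := h3 x ((le_max_left _ _).trans hx) T
      (fun i => tup_of ((le_max_right _ _).trans hx) (hT i)) y X D hX hXx hD hDX S hS (fun i => by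
        have := hSc i
        rw [hg x X (T i) (tup_of ((le_max_right _ _).trans hx) (hT i)).card] at this
        exact this)
    refine ⟨G, ?_, g2, fun d hd F hF hF0 i => ?_⟩
    · intro d hd l
      have := g1 hd
      rw [Fintype.mem_piFinset] at this
      exact mem_Icc.1 (this l)
    · obtain ⟨k1, k2, k3⟩ := g3 d hd F hF hF0 i
      have e : Pool.Agent.Y843.AC.HL.gg (Pool.Agent.X26.GP.TF (T i) d F) x =
          Sing (sumSet (T i) d F) / Real.log x ^ (Pool.Agent.X26.GP.TF (T i) d F).card := rfl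
      rw [e, k1] at k3
      refine ⟨k1, k2, ?_⟩
      have e2 : c * (Sing (sumSet (T i) d F) * (X / Real.log x ^ (3 * F.card))) =
          c * (X * (Sing (sumSet (T i) d F) / Real.log x ^ (3 * F.card))) := by ring
      rw [e2]
      exact k3

end Pool.Agent.Results.MP_c0d11e_nt.ShortIntervals
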